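import Mathlib

set_option autoImplicit false

namespace Pool.Agent.Results.MP_a382a5_co.SixBalls

/-- Some straight line of `ℝ^d` meets the closed unit ball around every point of `A`. -/
def HasTransversal {d : ℕ} (A : Set (EuclideanSpace ℝ (Fin d))) : Prop :=
  ∃ p v : EuclideanSpace ℝ (Fin d), v ≠ 0 ∧ ∀ c ∈ A, ∃ t : ℝ, p + t • v ∈ Metric.closedBall c 1

/-- The closed unit balls around the points of `A` are pairwise disjoint. -/
def DisjointBalls {d : ℕ} (A : Set (EuclideanSpace ℝ (Fin d))) : Prop :=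
  ∀ x ∈ A, ∀ y ∈ A, x ≠ y → Disjoint (Metric.closedBall x 1) (Metric.closedBall y 1)

/-- Property `T(k)`: every subfamily of at most `k` members has a line transversal. -/
def PropT {d : ℕ} (k : ℕ) (A : Set (EuclideanSpace ℝ (Fin d))) : Prop :=
  ∀ B : Finset (EuclideanSpace ℝ (Fin d)), (B : Set (EuclideanSpace ℝ (Fin d))) ⊆ A →
    B.card ≤ k → HasTransversal (B : Set (EuclideanSpace ℝ (Fin d)))

/-- `T(k)` implies `T` for all families of pairwise disjoint unit balls in `ℝ^d`. -/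
def Good (d k : ℕ) : Prop :=
  ∀ A : Set (EuclideanSpace ℝ (Fin d)), DisjointBalls A → PropT k A → HasTransversal A

/-- `T(k)` implies `T` for all finite families of pairwise disjoint unit balls in `ℝ^d`. -/
def GoodFin (d k : ℕ) : Prop :=
  ∀ A : Finset (EuclideanSpace ℝ (Fin d)), DisjointBalls (A : Set (EuclideanSpace ℝ (Fin d))) →
    PropT k (A : Set (EuclideanSpace ℝ (Fin d))) →
      HasTransversal (A : Set (EuclideanSpace ℝ (Fin d)))

/-! ### The algebra behind the absence of a transversal -/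

lemma pair_ineq (d0 d1 d2 s v0 v1 v2 : ℝ) :
    (d0 ^ 2 + d1 ^ 2 + d2 ^ 2) * (v0 ^ 2 + v1 ^ 2 + v2 ^ 2) - (d0 * v0 + d1 * v1 + d2 * v2) ^ 2 ≤
      ((d0 - s * v0) ^ 2 + (d1 - s * v1) ^ 2 + (d2 - s * v2) ^ 2) * (v0 ^ 2 + v1 ^ 2 + v2 ^ 2) := by
  nlinarith [sq_nonneg (d0 * v0 + d1 * v1 + d2 * v2 - s * (v0 ^ 2 + v1 ^ 2 + v2 ^ 2))]

lemma var_id (w a : Fin 6 → ℝ) :
    ∑ i, ∑ j, w i * w j * (a i - a j) ^ 2 =
      2 * ((∑ i, w i) * ∑ i, w i * a i ^ 2) - 2 * (∑ i, w i * a i) ^ 2 := by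
  simp only [Fin.sum_univ_six]
  ring

lemma weights (w : Fin 6 → ℝ) (hw : ∀ i, 0 ≤ w i) (C : Fin 6 → Fin 3 → ℝ) (p v : Fin 3 → ℝ)
    (t : Fin 6 → ℝ) (R : ℝ)
    (h : ∀ i, (C i 0 - p 0 - t i * v 0) ^ 2 + (C i 1 - p 1 - t i * v 1) ^ 2 +
      (C i 2 - p 2 - t i * v 2) ^ 2 ≤ R) :
    ∑ i, ∑ j, w i * w j *
      (((C i 0 - C j 0) ^ 2 + (C i 1 - C j 1) ^ 2 + (C i 2 - C j 2) ^ 2) *
          (v 0 ^ 2 + v 1 ^ 2 + v 2 ^ 2) -
        ((C i 0 - C j 0) * v 0 + (C i 1 - C j 1) * v 1 + (C i 2 - C j 2) * v 2) ^ 2) ≤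
      2 * R * (∑ i, w i) ^ 2 * (v 0 ^ 2 + v 1 ^ 2 + v 2 ^ 2) := by
  set a : Fin 6 → ℝ := fun i => C i 0 - p 0 - t i * v 0 with ha
  set b : Fin 6 → ℝ := fun i => C i 1 - p 1 - t i * v 1 with hb
  set c : Fin 6 → ℝ := fun i => C i 2 - p 2 - t i * v 2 with hc
  have hV : 0 ≤ v 0 ^ 2 + v 1 ^ 2 + v 2 ^ 2 := by positivity
  have h1 : ∑ i, ∑ j, w i * w j *
      (((C i 0 - C j 0) ^ 2 + (C i 1 - C j 1) ^ 2 + (C i 2 - C j 2) ^ 2) *
          (v 0 ^ 2 + v 1 ^ 2 + v 2 ^ 2) -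
        ((C i 0 - C j 0) * v 0 + (C i 1 - C j 1) * v 1 + (C i 2 - C j 2) * v 2) ^ 2) ≤
      ∑ i, ∑ j, w i * w j * (((a i - a j) ^ 2 + (b i - b j) ^ 2 + (c i - c j) ^ 2) *
          (v 0 ^ 2 + v 1 ^ 2 + v 2 ^ 2)) := by
    refine Finset.sum_le_sum fun i _ => Finset.sum_le_sum fun j _ => ?_
    refine mul_le_mul_of_nonneg_left ?_ (mul_nonneg (hw i) (hw j))
    have h2 := pair_ineq (C i 0 - C j 0) (C i 1 - C j 1) (C i 2 - C j 2) (t i - t j)
      (v 0) (v 1) (v 2)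
    have e0 : a i - a j = (C i 0 - C j 0) - (t i - t j) * v 0 := by simp only [ha]; ring
    have e1 : b i - b j = (C i 1 - C j 1) - (t i - t j) * v 1 := by simp only [hb]; ring
    have e2 : c i - c j = (C i 2 - C j 2) - (t i - t j) * v 2 := by simp only [hc]; ring
    rw [e0, e1, e2]
    exact h2
  have h2 : ∑ i, ∑ j, w i * w j * (((a i - a j) ^ 2 + (b i - b j) ^ 2 + (c i - c j) ^ 2) *
          (v 0 ^ 2 + v 1 ^ 2 + v 2 ^ 2)) =
      (v 0 ^ 2 + v 1 ^ 2 + v 2 ^ 2) * ((∑ i, ∑ j, w i * w j * (a i - a j) ^ 2) +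
        (∑ i, ∑ j, w i * w j * (b i - b j) ^ 2) + ∑ i, ∑ j, w i * w j * (c i - c j) ^ 2) := by
    rw [← Finset.sum_add_distrib, ← Finset.sum_add_distrib, Finset.mul_sum]
    refine Finset.sum_congr rfl fun i _ => ?_
    rw [← Finset.sum_add_distrib, ← Finset.sum_add_distrib, Finset.mul_sum]
    refine Finset.sum_congr rfl fun j _ => ?_
    ring
  have hW : 0 ≤ ∑ i, w i := Finset.sum_nonneg fun i _ => hw i
  have h3 : (∑ i, w i * a i ^ 2) + (∑ i, w i * b i ^ 2) + (∑ i, w i * c i ^ 2) ≤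
      R * ∑ i, w i := by
    rw [← Finset.sum_add_distrib, ← Finset.sum_add_distrib, Finset.mul_sum]
    refine Finset.sum_le_sum fun i _ => ?_
    have := mul_le_mul_of_nonneg_left (h i) (hw i)
    simp only [ha, hb, hc]
    linarith
  have h4 : (∑ i, ∑ j, w i * w j * (a i - a j) ^ 2) +
        (∑ i, ∑ j, w i * w j * (b i - b j) ^ 2) + (∑ i, ∑ j, w i * w j * (c i - c j) ^ 2) ≤
      2 * R * (∑ i, w i) ^ 2 := by
    rw [var_id, var_id, var_id]
    have := mul_le_mul_of_nonneg_left h3 hW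
    nlinarith [sq_nonneg (∑ i, w i * a i), sq_nonneg (∑ i, w i * b i),
      sq_nonneg (∑ i, w i * c i)]
  calc _ ≤ _ := h1
    _ = _ := h2
    _ ≤ (v 0 ^ 2 + v 1 ^ 2 + v 2 ^ 2) * (2 * R * (∑ i, w i) ^ 2) :=
        mul_le_mul_of_nonneg_left h4 hV
    _ = _ := by ring

/-! ### The six centres (in units of `1/20`) -/

/-- integer coordinates of the six centres -/
def ctr : Fin 6 → Fin 3 → ℤ :=
  ![![5, 2, 23], ![-1, 31, -7], ![12, -46, 6], ![-6, -10, -14], ![33, -12, -3], ![-43, 34, -5]]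

/-- coefficients of the quadratic form attached to weights `a,…,f` -/
structure Q6 where
  xx : ℤ
  yy : ℤ
  zz : ℤ
  xy : ℤ
  xz : ℤ
  yz : ℤ

def frm (a b c d e f : ℤ) : Q6 :=
  let W := a + b + c + d + e + f
  let m0 := 5 * a - b + 12 * c - 6 * d + 33 * e - 43 * f
  let m1 := 2 * a + 31 * b - 46 * c - 10 * d - 12 * e + 34 * f
  let m2 := 23 * a - 7 * b + 6 * c - 14 * d - 3 * e - 5 * f
  let q00 := W * (25 * a + b + 144 * c + 36 * d + 1089 * e + 1849 * f) - m0 * m0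
  let q11 := W * (4 * a + 961 * b + 2116 * c + 100 * d + 144 * e + 1156 * f) - m1 * m1
  let q22 := W * (529 * a + 49 * b + 36 * c + 196 * d + 9 * e + 25 * f) - m2 * m2
  let q01 := W * (10 * a - 31 * b - 552 * c + 60 * d - 396 * e - 1462 * f) - m0 * m1
  let q02 := W * (115 * a + 7 * b + 72 * c + 84 * d - 99 * e + 215 * f) - m0 * m2
  let q12 := W * (46 * a - 217 * b - 276 * c + 140 * d + 36 * e - 170 * f) - m1 * m2
  let r := 400 * W * W
  ⟨q11 + q22 - r, q00 + q22 - r, q00 + q11 - r, -2 * q01, -2 * q02, -2 * q12⟩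

/-- value of the form -/
def Q6.ev (q : Q6) (x y z : ℝ) : ℝ :=
  q.xx * x ^ 2 + q.yy * y ^ 2 + q.zz * z ^ 2 + q.xy * (x * y) + q.xz * (x * z) + q.yz * (y * z)

lemma ev_eq (a b c d e f : ℤ) (x y z : ℝ) :
    2 * (frm a b c d e f).ev x y z =
      (∑ i, ∑ j, (![(a : ℝ), b, c, d, e, f] : Fin 6 → ℝ) i * (![(a : ℝ), b, c, d, e, f] : Fin 6 → ℝ) j *
        ((((ctr i 0 : ℝ) - ctr j 0) ^ 2 + ((ctr i 1 : ℝ) - ctr j 1) ^ 2 +
            ((ctr i 2 : ℝ) - ctr j 2) ^ 2) * (x ^ 2 + y ^ 2 + z ^ 2) -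
          (((ctr i 0 : ℝ) - ctr j 0) * x + ((ctr i 1 : ℝ) - ctr j 1) * y +
            ((ctr i 2 : ℝ) - ctr j 2) * z) ^ 2)) -
      2 * 400 * ((a : ℝ) + b + c + d + e + f) ^ 2 * (x ^ 2 + y ^ 2 + z ^ 2) := by
  simp only [Fin.sum_univ_six, ctr, Matrix.cons_val_zero, Matrix.cons_val_one, Matrix.cons_val,
    Q6.ev, frm]
  push_cast
  ring

lemma form_nonpos (a b c d e f : ℤ) (ha : 0 ≤ a) (hb : 0 ≤ b) (hc : 0 ≤ c) (hd : 0 ≤ d)
    (he : 0 ≤ e) (hf : 0 ≤ f) (p v : Fin 3 → ℝ) (t : Fin 6 → ℝ)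
    (h : ∀ i, ((ctr i 0 : ℝ) - p 0 - t i * v 0) ^ 2 + ((ctr i 1 : ℝ) - p 1 - t i * v 1) ^ 2 +
      ((ctr i 2 : ℝ) - p 2 - t i * v 2) ^ 2 ≤ 400) :
    (frm a b c d e f).ev (v 0) (v 1) (v 2) ≤ 0 := by
  have key := weights ![(a : ℝ), b, c, d, e, f] (by
    intro i
    fin_cases i <;> simp <;> assumption_mod_cast) (fun i k => (ctr i k : ℝ)) p v t 400 h
  have e1 := ev_eq a b c d e f (v 0) (v 1) (v 2)
  have e2 : ∑ i, (![(a : ℝ), b, c, d, e, f] : Fin 6 → ℝ) i = (a : ℝ) + b + c + d + e + f := by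
    simp [Fin.sum_univ_six]
  rw [e2] at key
  linarith

/-! ### Positivity of a form on a rectangle -/

lemma rect_pos (A E F G H I y0 y1 z0 z1 y z : ℝ) (hy : y0 < y1) (hz : z0 < z1)
    (hy0 : y0 ≤ y) (hy1 : y ≤ y1) (hz0 : z0 ≤ z) (hz1 : z ≤ z1) (K : ℝ)
    (hE : E * (y1 - y0) ^ 2 + F * (z1 - z0) ^ 2 ≤ K)
    (hE' : E * (y1 - y0) ^ 2 ≤ K) (hF' : F * (z1 - z0) ^ 2 ≤ K) (hK : 0 ≤ K)
    (h00 : K < 4 * (A + G * y0 + H * z0 + I * (y0 * z0) + E * y0 ^ 2 + F * z0 ^ 2))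
    (h01 : K < 4 * (A + G * y0 + H * z1 + I * (y0 * z1) + E * y0 ^ 2 + F * z1 ^ 2))
    (h10 : K < 4 * (A + G * y1 + H * z0 + I * (y1 * z0) + E * y1 ^ 2 + F * z0 ^ 2))
    (h11 : K < 4 * (A + G * y1 + H * z1 + I * (y1 * z1) + E * y1 ^ 2 + F * z1 ^ 2)) :
    0 < A + G * y + H * z + I * (y * z) + E * y ^ 2 + F * z ^ 2 := by
  have hyp : 0 < y1 - y0 := by linarith
  have hzp : 0 < z1 - z0 := by linarith
  obtain ⟨s, hs0, hs1, rfl⟩ : ∃ s : ℝ, 0 ≤ s ∧ s ≤ 1 ∧ y = y0 + s * (y1 - y0) :=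
    ⟨(y - y0) / (y1 - y0), div_nonneg (by linarith) hyp.le,
      (div_le_one hyp).2 (by linarith), by field_simp; ring⟩
  obtain ⟨r, hr0, hr1, rfl⟩ : ∃ r : ℝ, 0 ≤ r ∧ r ≤ 1 ∧ z = z0 + r * (z1 - z0) :=
    ⟨(z - z0) / (z1 - z0), div_nonneg (by linarith) hzp.le,
      (div_le_one hzp).2 (by linarith), by field_simp; ring⟩
  have hs' : 0 ≤ 1 - s := by linarith
  have hr' : 0 ≤ 1 - r := by linarith
  -- value in terms of the corners
  have hid : 4 * (A + G * (y0 + s * (y1 - y0)) + H * (z0 + r * (z1 - z0)) +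
      I * ((y0 + s * (y1 - y0)) * (z0 + r * (z1 - z0))) + E * (y0 + s * (y1 - y0)) ^ 2 +
      F * (z0 + r * (z1 - z0)) ^ 2) =
      (1 - s) * (1 - r) * (4 * (A + G * y0 + H * z0 + I * (y0 * z0) + E * y0 ^ 2 + F * z0 ^ 2)) +
      (1 - s) * r * (4 * (A + G * y0 + H * z1 + I * (y0 * z1) + E * y0 ^ 2 + F * z1 ^ 2)) +
      s * (1 - r) * (4 * (A + G * y1 + H * z0 + I * (y1 * z0) + E * y1 ^ 2 + F * z0 ^ 2)) +
      s * r * (4 * (A + G * y1 + H * z1 + I * (y1 * z1) + E * y1 ^ 2 + F * z1 ^ 2)) -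
      (E * (y1 - y0) ^ 2) * (4 * (s * (1 - s))) - (F * (z1 - z0) ^ 2) * (4 * (r * (1 - r))) := by
    ring
  have c1 : 0 ≤ (1 - s) * (1 - r) := mul_nonneg hs' hr'
  have c2 : 0 ≤ (1 - s) * r := mul_nonneg hs' hr0
  have c3 : 0 ≤ s * (1 - r) := mul_nonneg hs0 hr'
  have c4 : 0 ≤ s * r := mul_nonneg hs0 hr0
  have csum : (1 - s) * (1 - r) + (1 - s) * r + s * (1 - r) + s * r = 1 := by ring
  have hs4 : 0 ≤ 4 * (s * (1 - s)) := by positivity
  have hs4' : 4 * (s * (1 - s)) ≤ 1 := by nlinarith [sq_nonneg (2 * s - 1)]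
  have hr4 : 0 ≤ 4 * (r * (1 - r)) := by positivity
  have hr4' : 4 * (r * (1 - r)) ≤ 1 := by nlinarith [sq_nonneg (2 * r - 1)]
  -- curvature part
  have hcurv : (E * (y1 - y0) ^ 2) * (4 * (s * (1 - s))) +
      (F * (z1 - z0) ^ 2) * (4 * (r * (1 - r))) ≤ K := by
    generalize E * (y1 - y0) ^ 2 = e at *
    generalize F * (z1 - z0) ^ 2 = f at *
    generalize 4 * (s * (1 - s)) = σ at *
    generalize 4 * (r * (1 - r)) = ρ at *
    rcases le_total e 0 with he | he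
    · rcases le_total f 0 with hf | hf
      · nlinarith [mul_nonneg (neg_nonneg.2 he) hs4, mul_nonneg (neg_nonneg.2 hf) hr4]
      · nlinarith [mul_nonneg (neg_nonneg.2 he) hs4, mul_nonneg hf (sub_nonneg.2 hr4')]
    · rcases le_total f 0 with hf | hf
      · nlinarith [mul_nonneg he (sub_nonneg.2 hs4'), mul_nonneg (neg_nonneg.2 hf) hr4]
      · nlinarith [mul_nonneg he (sub_nonneg.2 hs4'), mul_nonneg hf (sub_nonneg.2 hr4')]
  generalize 4 * (A + G * y0 + H * z0 + I * (y0 * z0) + E * y0 ^ 2 + F * z0 ^ 2) = g00 at *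
  generalize 4 * (A + G * y0 + H * z1 + I * (y0 * z1) + E * y0 ^ 2 + F * z1 ^ 2) = g01 at *
  generalize 4 * (A + G * y1 + H * z0 + I * (y1 * z0) + E * y1 ^ 2 + F * z0 ^ 2) = g10 at *
  generalize 4 * (A + G * y1 + H * z1 + I * (y1 * z1) + E * y1 ^ 2 + F * z1 ^ 2) = g11 at *
  have hmin : K < (1 - s) * (1 - r) * g00 + (1 - s) * r * g01 + s * (1 - r) * g10 +
      s * r * g11 := by
    generalize (1 - s) * (1 - r) = a1 at *
    generalize (1 - s) * r = a2 at *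
    generalize s * (1 - r) = a3 at *
    generalize s * r = a4 at *
    obtain ⟨m, hm, m1, m2, m3, m4⟩ : ∃ m, K < m ∧ m ≤ g00 ∧ m ≤ g01 ∧ m ≤ g10 ∧ m ≤ g11 :=
      ⟨min (min g00 g01) (min g10 g11), by simp [h00, h01, h10, h11],
        (min_le_left _ _).trans (min_le_left _ _), (min_le_left _ _).trans (min_le_right _ _),
        (min_le_right _ _).trans (min_le_left _ _), (min_le_right _ _).trans (min_le_right _ _)⟩
    have e : m = a1 * m + a2 * m + a3 * m + a4 * m := by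
      rw [← add_mul, ← add_mul, ← add_mul, csum, one_mul]
    have := mul_le_mul_of_nonneg_left m1 c1
    have := mul_le_mul_of_nonneg_left m2 c2
    have := mul_le_mul_of_nonneg_left m3 c3
    have := mul_le_mul_of_nonneg_left m4 c4
    linarith
  linarith

/-! ### The certificate -/

/-- a subdivision of a rectangle, with weights at the leaves -/
inductive Tree
  | w (a b c d e f : ℕ) : Tree
  | y (l r : Tree) : Tree
  | z (l r : Tree) : Tree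

/-- the form with its variables permuted -/
def Q6.perm (q : Q6) : ℕ → Q6
  | 0 => q
  | 1 => ⟨q.yy, q.xx, q.zz, q.xy, q.yz, q.xz⟩
  | _ => ⟨q.zz, q.xx, q.yy, q.xz, q.yz, q.xy⟩

/-- value at integers -/
def Q6.evz (q : Q6) (x y z : ℤ) : ℤ :=
  q.xx * x ^ 2 + q.yy * y ^ 2 + q.zz * z ^ 2 + q.xy * (x * y) + q.xz * (x * z) + q.yz * (y * z)

/-- the form is positive on the rectangle `[y0,y1] × [z0,z1]`, first variable `8` -/
def Q6.pos (q : Q6) (y0 y1 z0 z1 : ℤ) : Bool :=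
  let K := max 0 q.yy * (y1 - y0) ^ 2 + max 0 q.zz * (z1 - z0) ^ 2
  decide (y0 < y1) && decide (z0 < z1) && decide (K < 4 * q.evz 8 y0 z0) &&
    decide (K < 4 * q.evz 8 y0 z1) && decide (K < 4 * q.evz 8 y1 z0) &&
    decide (K < 4 * q.evz 8 y1 z1)

def Tree.check (n : ℕ) : Tree → ℤ → ℤ → ℤ → ℤ → Bool
  | .w a b c d e f, y0, y1, z0, z1 => ((frm a b c d e f).perm n).pos y0 y1 z0 z1
  | .y l r, y0, y1, z0, z1 =>
    l.check n y0 ((y0 + y1) / 2) z0 z1 && r.check n ((y0 + y1) / 2) y1 z0 z1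
  | .z l r, y0, y1, z0, z1 =>
    l.check n y0 y1 z0 ((z0 + z1) / 2) && r.check n y0 y1 ((z0 + z1) / 2) z1

lemma pos_sound (q : Q6) (y0 y1 z0 z1 : ℤ) (h : q.pos y0 y1 z0 z1 = true) (y z : ℝ)
    (hy0 : (y0 : ℝ) ≤ y) (hy1 : y ≤ y1) (hz0 : (z0 : ℝ) ≤ z) (hz1 : z ≤ z1) :
    0 < q.ev 8 y z := by
  simp only [Q6.pos, Bool.and_eq_true, decide_eq_true_eq] at h
  obtain ⟨⟨⟨⟨⟨h1, h2⟩, h3⟩, h4⟩, h5⟩, h6⟩ := h
  have hK0 : (0 : ℝ) ≤ max 0 (q.yy : ℝ) * ((y1 : ℝ) - y0) ^ 2 := by positivity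
  have hK1 : (0 : ℝ) ≤ max 0 (q.zz : ℝ) * ((z1 : ℝ) - z0) ^ 2 := by positivity
  have hE : (q.yy : ℝ) * ((y1 : ℝ) - y0) ^ 2 ≤ max 0 (q.yy : ℝ) * ((y1 : ℝ) - y0) ^ 2 :=
    mul_le_mul_of_nonneg_right (le_max_right _ _) (by positivity)
  have hF : (q.zz : ℝ) * ((z1 : ℝ) - z0) ^ 2 ≤ max 0 (q.zz : ℝ) * ((z1 : ℝ) - z0) ^ 2 :=
    mul_le_mul_of_nonneg_right (le_max_right _ _) (by positivity)
  have c3 : (max 0 (q.yy : ℝ) * ((y1 : ℝ) - y0) ^ 2 + max 0 (q.zz : ℝ) * ((z1 : ℝ) - z0) ^ 2) <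
      4 * (((q.evz 8 y0 z0 : ℤ)) : ℝ) := by exact_mod_cast h3
  have c4 : (max 0 (q.yy : ℝ) * ((y1 : ℝ) - y0) ^ 2 + max 0 (q.zz : ℝ) * ((z1 : ℝ) - z0) ^ 2) <
      4 * (((q.evz 8 y0 z1 : ℤ)) : ℝ) := by exact_mod_cast h4
  have c5 : (max 0 (q.yy : ℝ) * ((y1 : ℝ) - y0) ^ 2 + max 0 (q.zz : ℝ) * ((z1 : ℝ) - z0) ^ 2) <
      4 * (((q.evz 8 y1 z0 : ℤ)) : ℝ) := by exact_mod_cast h5
  have c6 : (max 0 (q.yy : ℝ) * ((y1 : ℝ) - y0) ^ 2 + max 0 (q.zz : ℝ) * ((z1 : ℝ) - z0) ^ 2) <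
      4 * (((q.evz 8 y1 z1 : ℤ)) : ℝ) := by exact_mod_cast h6
  simp only [Q6.evz] at c3 c4 c5 c6
  push_cast at c3 c4 c5 c6
  have := rect_pos (q.xx * 8 ^ 2) q.yy q.zz (q.xy * 8) (q.xz * 8) q.yz y0 y1 z0 z1 y z
    (by exact_mod_cast h1) (by exact_mod_cast h2) hy0 hy1 hz0 hz1
    (max 0 (q.yy : ℝ) * ((y1 : ℝ) - y0) ^ 2 + max 0 (q.zz : ℝ) * ((z1 : ℝ) - z0) ^ 2)
    (by linarith) (by linarith) (by linarith) (by linarith)
    (by linarith) (by linarith) (by linarith) (by linarith)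
  simp only [Q6.ev]
  linarith

lemma check_sound (n : ℕ) : ∀ (T : Tree) (y0 y1 z0 z1 : ℤ), T.check n y0 y1 z0 z1 = true →
    ∀ y z : ℝ, (y0 : ℝ) ≤ y → y ≤ y1 → (z0 : ℝ) ≤ z → z ≤ z1 →
      ∃ a b c d e f : ℕ, 0 < ((frm a b c d e f).perm n).ev 8 y z := by
  intro T
  induction T with
  | w a b c d e f =>
    intro y0 y1 z0 z1 h y z h1 h2 h3 h4
    exact ⟨a, b, c, d, e, f, pos_sound _ _ _ _ _ h y z h1 h2 h3 h4⟩
  | y l r ihl ihr =>
    intro y0 y1 z0 z1 h y z h1 h2 h3 h4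
    simp only [Tree.check, Bool.and_eq_true] at h
    rcases le_total y (((y0 + y1) / 2 : ℤ) : ℝ) with hm | hm
    · exact ihl _ _ _ _ h.1 y z h1 hm h3 h4
    · exact ihr _ _ _ _ h.2 y z hm h2 h3 h4
  | z l r ihl ihr =>
    intro y0 y1 z0 z1 h y z h1 h2 h3 h4
    simp only [Tree.check, Bool.and_eq_true] at h
    rcases le_total z (((z0 + z1) / 2 : ℤ) : ℝ) with hm | hm
    · exact ihl _ _ _ _ h.1 y z h1 h2 h3 hm
    · exact ihr _ _ _ _ h.2 y z h1 h2 hm h4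

def tree0 : Tree := (.y (.z (.w 0 8 8 0 0 0) (.w 0 8 8 0 0 0)) (.w 0 0 8 0 0 8))

def tree1 : Tree := (.y (.z (.z (.y (.z (.w 0 0 2 0 7 7) (.w 1 4 4 0 3 4)) (.w 0 0 0 0 8 8))
  (.y (.w 6 1 1 5 3 0) (.w 0 0 0 0 8 8))) (.z (.y (.z (.y (.w 7 2 0 7 0 0) (.w 7 2 0 6 1 1))
  (.w 1 5 5 0 2 3)) (.w 0 0 0 0 8 8)) (.w 0 0 4 0 4 7))) (.w 0 0 0 0 8 8))

def tree2 : Tree := (.z (.w 0 0 4 0 4 8) (.w 0 0 7 0 1 8))

lemma check0 : tree0.check 0 (-8) 8 (-8) 8 = true := by decide +kernel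
lemma check1 : tree1.check 1 (-8) 8 (-8) 8 = true := by decide +kernel
lemma check2 : tree2.check 2 (-8) 8 (-8) 8 = true := by decide +kernel

lemma ev_scale (q : Q6) (s x y z : ℝ) : q.ev (s * x) (s * y) (s * z) = s ^ 2 * q.ev x y z := by
  simp only [Q6.ev]
  ring

lemma abs_le_frac {x y : ℝ} (hx : x ≠ 0) (h : |y| ≤ |x|) :
    -8 ≤ 8 * (y / x) ∧ 8 * (y / x) ≤ 8 := by
  have h1 : |y / x| ≤ 1 := by
    rw [abs_div]
    exact (div_le_one (abs_pos.2 hx)).2 h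
  rw [abs_le] at h1
  constructor <;> linarith [h1.1, h1.2]

/-- Every direction is excluded by one of the forms. -/
lemma exists_form_pos (x y z : ℝ) (h : ¬ (x = 0 ∧ y = 0 ∧ z = 0)) :
    ∃ a b c d e f : ℕ, 0 < (frm a b c d e f).ev x y z := by
  have hcase : (x ≠ 0 ∧ |y| ≤ |x| ∧ |z| ≤ |x|) ∨ (y ≠ 0 ∧ |x| ≤ |y| ∧ |z| ≤ |y|) ∨
      (z ≠ 0 ∧ |x| ≤ |z| ∧ |y| ≤ |z|) := by
    by_contra hcon
    push Not at hcon
    obtain ⟨h1, h2, h3⟩ := hcon
    apply h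
    by_contra h0
    rcases le_total |x| |y| with hxy | hxy
    · rcases le_total |y| |z| with hyz | hyz
      · -- |z| largest
        by_cases hz : z = 0
        · subst hz
          simp only [abs_zero] at hyz
          have : y = 0 := abs_eq_zero.1 (le_antisymm hyz (abs_nonneg _))
          subst this
          simp only [abs_zero] at hxy
          exact h0 ⟨abs_eq_zero.1 (le_antisymm hxy (abs_nonneg _)), rfl, rfl⟩
        · exact absurd (h3 hz (hxy.trans hyz)) (not_lt.2 hyz)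
      · by_cases hy : y = 0
        · subst hy
          simp only [abs_zero] at hxy hyz
          exact h0 ⟨abs_eq_zero.1 (le_antisymm hxy (abs_nonneg _)), rfl,
            abs_eq_zero.1 (le_antisymm hyz (abs_nonneg _))⟩
        · exact absurd (h2 hy hxy) (not_lt.2 hyz)
    · rcases le_total |x| |z| with hxz | hxz
      · by_cases hz : z = 0
        · subst hz
          simp only [abs_zero] at hxz
          have : x = 0 := abs_eq_zero.1 (le_antisymm hxz (abs_nonneg _))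
          subst this
          simp only [abs_zero] at hxy
          exact h0 ⟨rfl, abs_eq_zero.1 (le_antisymm hxy (abs_nonneg _)), rfl⟩
        · exact absurd (h3 hz hxz) (not_lt.2 (hxy.trans hxz))
      · by_cases hx : x = 0
        · subst hx
          simp only [abs_zero] at hxy hxz
          exact h0 ⟨rfl, abs_eq_zero.1 (le_antisymm hxy (abs_nonneg _)),
            abs_eq_zero.1 (le_antisymm hxz (abs_nonneg _))⟩
        · exact absurd (h1 hx hxy) (not_lt.2 hxz)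
  rcases hcase with ⟨hx, h1, h2⟩ | ⟨hy, h1, h2⟩ | ⟨hz, h1, h2⟩
  · obtain ⟨a1, a2⟩ := abs_le_frac hx h1
    obtain ⟨b1, b2⟩ := abs_le_frac hx h2
    obtain ⟨a, b, c, d, e, f, hp⟩ := check_sound 0 tree0 (-8) 8 (-8) 8 check0
      (8 * (y / x)) (8 * (z / x)) (by push_cast; exact a1) (by push_cast; exact a2)
      (by push_cast; exact b1) (by push_cast; exact b2)
    refine ⟨a, b, c, d, e, f, ?_⟩
    have hs : (frm a b c d e f).ev x y z =
        (x / 8) ^ 2 * (frm a b c d e f).ev 8 (8 * (y / x)) (8 * (z / x)) := by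
      rw [← ev_scale]
      congr 1 <;> field_simp
    rw [hs]
    have : 0 < (x / 8) ^ 2 := by positivity
    exact mul_pos this hp
  · obtain ⟨a1, a2⟩ := abs_le_frac hy h1
    obtain ⟨b1, b2⟩ := abs_le_frac hy h2
    obtain ⟨a, b, c, d, e, f, hp⟩ := check_sound 1 tree1 (-8) 8 (-8) 8 check1
      (8 * (x / y)) (8 * (z / y)) (by push_cast; exact a1) (by push_cast; exact a2)
      (by push_cast; exact b1) (by push_cast; exact b2)
    refine ⟨a, b, c, d, e, f, ?_⟩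
    have hp' : ((frm a b c d e f).perm 1).ev 8 (8 * (x / y)) (8 * (z / y)) =
        (frm a b c d e f).ev (8 * (x / y)) 8 (8 * (z / y)) := by
      simp only [Q6.perm, Q6.ev]
      ring
    rw [hp'] at hp
    have hs : (frm a b c d e f).ev x y z =
        (y / 8) ^ 2 * (frm a b c d e f).ev (8 * (x / y)) 8 (8 * (z / y)) := by
      rw [← ev_scale]
      congr 1 <;> field_simp
    rw [hs]
    have : 0 < (y / 8) ^ 2 := by positivity
    exact mul_pos this hp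
  · obtain ⟨a1, a2⟩ := abs_le_frac hz h1
    obtain ⟨b1, b2⟩ := abs_le_frac hz h2
    obtain ⟨a, b, c, d, e, f, hp⟩ := check_sound 2 tree2 (-8) 8 (-8) 8 check2
      (8 * (x / z)) (8 * (y / z)) (by push_cast; exact a1) (by push_cast; exact a2)
      (by push_cast; exact b1) (by push_cast; exact b2)
    refine ⟨a, b, c, d, e, f, ?_⟩
    have hp' : ((frm a b c d e f).perm 2).ev 8 (8 * (x / z)) (8 * (y / z)) =
        (frm a b c d e f).ev (8 * (x / z)) (8 * (y / z)) 8 := by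
      simp only [Q6.perm, Q6.ev]
      ring
    rw [hp'] at hp
    have hs : (frm a b c d e f).ev x y z =
        (z / 8) ^ 2 * (frm a b c d e f).ev (8 * (x / z)) (8 * (y / z)) 8 := by
      rw [← ev_scale]
      congr 1 <;> field_simp
    rw [hs]
    have : 0 < (z / 8) ^ 2 := by positivity
    exact mul_pos this hp

/-! ### The family -/

/-- the six centres -/
noncomputable def P (i : Fin 6) : EuclideanSpace ℝ (Fin 3) :=
  WithLp.toLp 2 (fun k => (ctr i k : ℝ) / 20)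

lemma P_apply (i : Fin 6) (k : Fin 3) : P i k = (ctr i k : ℝ) / 20 := rfl

lemma dist_sq (x y : EuclideanSpace ℝ (Fin 3)) :
    dist x y ^ 2 = (x 0 - y 0) ^ 2 + (x 1 - y 1) ^ 2 + (x 2 - y 2) ^ 2 := by
  rw [EuclideanSpace.dist_eq, Real.sq_sqrt (by positivity), Fin.sum_univ_three]
  simp only [Real.dist_eq, sq_abs]

lemma sep_int : ∀ i j : Fin 6, i ≠ j →
    1600 < (ctr i 0 - ctr j 0) ^ 2 + (ctr i 1 - ctr j 1) ^ 2 + (ctr i 2 - ctr j 2) ^ 2 := by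
  decide

lemma sep (i j : Fin 6) (h : i ≠ j) : 2 < dist (P i) (P j) := by
  have h1 := sep_int i j h
  have h2 : (1600 : ℝ) < ((ctr i 0 : ℝ) - ctr j 0) ^ 2 + ((ctr i 1 : ℝ) - ctr j 1) ^ 2 +
      ((ctr i 2 : ℝ) - ctr j 2) ^ 2 := by exact_mod_cast h1
  have h3 := dist_sq (P i) (P j)
  simp only [P_apply] at h3
  have h4 : (0 : ℝ) ≤ dist (P i) (P j) := dist_nonneg
  nlinarith

lemma P_inj : Function.Injective P := by
  intro i j hij
  by_contra hne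
  have := sep i j hne
  rw [hij, dist_self] at this
  linarith

/-- the family of the six centres -/
noncomputable def fam : Finset (EuclideanSpace ℝ (Fin 3)) :=
  Finset.univ.image P

lemma card_fam : fam.card = 6 := by
  rw [fam, Finset.card_image_of_injective _ P_inj]
  simp

lemma fam_disjoint : DisjointBalls (fam : Set (EuclideanSpace ℝ (Fin 3))) := by
  intro x hx y hy hxy
  simp only [fam, Finset.coe_image, Finset.coe_univ, Set.image_univ, Set.mem_range] at hx hy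
  obtain ⟨i, rfl⟩ := hx
  obtain ⟨j, rfl⟩ := hy
  have hij : i ≠ j := fun h => hxy (by rw [h])
  exact Metric.closedBall_disjoint_closedBall (by linarith [sep i j hij])

lemma fam_no_transversal : ¬ HasTransversal (fam : Set (EuclideanSpace ℝ (Fin 3))) := by
  rintro ⟨p, v, hv, h⟩
  have h1 : ∀ i : Fin 6, ∃ t : ℝ, dist (p + t • v) (P i) ≤ 1 := by
    intro i
    obtain ⟨t, ht⟩ := h (P i) (by simp [fam])
    exact ⟨t, Metric.mem_closedBall.1 ht⟩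
  choose t ht using h1
  have hv' : ¬ (v 0 = 0 ∧ v 1 = 0 ∧ v 2 = 0) := by
    rintro ⟨a, b, c⟩
    apply hv
    ext k
    fin_cases k
    · exact a
    · exact b
    · exact c
  obtain ⟨a, b, c, d, e, f, hpos⟩ := exists_form_pos (v 0) (v 1) (v 2) hv'
  have := form_nonpos a b c d e f (by positivity) (by positivity) (by positivity)
    (by positivity) (by positivity) (by positivity) (fun k => 20 * p k) (fun k => v k)
    (fun i => 20 * t i) (by
      intro i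
      have h2 := dist_sq (p + t i • v) (P i)
      have h3 : dist (p + t i • v) (P i) ^ 2 ≤ 1 := by
        have := ht i
        have h4 : (0 : ℝ) ≤ dist (p + t i • v) (P i) := dist_nonneg
        nlinarith
      rw [h2] at h3
      simp only [P_apply, PiLp.add_apply, PiLp.smul_apply, smul_eq_mul] at h3
      nlinarith [h3])
  linarith

/-! ### Transversals of the five-element subfamilies -/

/-- numerators of the base points of the lines -/
def lp : Fin 6 → Fin 3 → ℤ :=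
  ![![2, 1, -3], ![-4, -7, 17], ![9, 10, 1], ![1, 1, 4], ![-7, -1, 6], ![2, 1, 3]]

/-- denominators of the base points of the lines -/
def ld : Fin 6 → ℤ := ![1, 4, 5, 1, 2, 1]

/-- directions of the lines -/
def lv : Fin 6 → Fin 3 → ℤ :=
  ![![-2, 3, 0], ![5, -6, -1], ![10, -9, 6], ![-3, 4, 0], ![-4, 6, -3], ![-15, 25, 6]]

lemma line_int : ∀ i j : Fin 6, i ≠ j →
    ((ld i * ctr j 0 - lp i 0) ^ 2 + (ld i * ctr j 1 - lp i 1) ^ 2 +
      (ld i * ctr j 2 - lp i 2) ^ 2) * (lv i 0 ^ 2 + lv i 1 ^ 2 + lv i 2 ^ 2) -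
    ((ld i * ctr j 0 - lp i 0) * lv i 0 + (ld i * ctr j 1 - lp i 1) * lv i 1 +
      (ld i * ctr j 2 - lp i 2) * lv i 2) ^ 2 ≤
    400 * ld i ^ 2 * (lv i 0 ^ 2 + lv i 1 ^ 2 + lv i 2 ^ 2) := by
  decide

lemma ld_pos : ∀ i : Fin 6, 0 < ld i := by decide

lemma lv_pos : ∀ i : Fin 6, 0 < lv i 0 ^ 2 + lv i 1 ^ 2 + lv i 2 ^ 2 := by decide

lemma line_hits (i j : Fin 6) (hij : i ≠ j) :
    ∃ t : ℝ, (WithLp.toLp 2 (fun k => (lp i k : ℝ) / (20 * ld i)) : EuclideanSpace ℝ (Fin 3)) +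
      t • (WithLp.toLp 2 (fun k => (lv i k : ℝ)) : EuclideanSpace ℝ (Fin 3)) ∈
        Metric.closedBall (P j) 1 := by
  have h1 := line_int i j hij
  have hD := ld_pos i
  have hV := lv_pos i
  have h1' : (((ld i : ℝ) * ctr j 0 - lp i 0) ^ 2 + ((ld i : ℝ) * ctr j 1 - lp i 1) ^ 2 +
      ((ld i : ℝ) * ctr j 2 - lp i 2) ^ 2) *
        ((lv i 0 : ℝ) ^ 2 + (lv i 1 : ℝ) ^ 2 + (lv i 2 : ℝ) ^ 2) -
    (((ld i : ℝ) * ctr j 0 - lp i 0) * lv i 0 + ((ld i : ℝ) * ctr j 1 - lp i 1) * lv i 1 +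
      ((ld i : ℝ) * ctr j 2 - lp i 2) * lv i 2) ^ 2 ≤
    400 * (ld i : ℝ) ^ 2 * ((lv i 0 : ℝ) ^ 2 + (lv i 1 : ℝ) ^ 2 + (lv i 2 : ℝ) ^ 2) := by
    exact_mod_cast h1
  have hD' : (0 : ℝ) < ld i := by exact_mod_cast hD
  have hV' : (0 : ℝ) < (lv i 0 : ℝ) ^ 2 + (lv i 1 : ℝ) ^ 2 + (lv i 2 : ℝ) ^ 2 := by
    exact_mod_cast hV
  set D : ℝ := (ld i : ℝ) with hDdef
  set V : ℝ := (lv i 0 : ℝ) ^ 2 + (lv i 1 : ℝ) ^ 2 + (lv i 2 : ℝ) ^ 2 with hVdef
  set S : ℝ := (D * ctr j 0 - lp i 0) * lv i 0 + (D * ctr j 1 - lp i 1) * lv i 1 +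
      (D * ctr j 2 - lp i 2) * lv i 2 with hSdef
  set Q : ℝ := (D * ctr j 0 - lp i 0) ^ 2 + (D * ctr j 1 - lp i 1) ^ 2 +
      (D * ctr j 2 - lp i 2) ^ 2 with hQdef
  refine ⟨S / (20 * D * V), ?_⟩
  rw [Metric.mem_closedBall]
  have hd := dist_sq ((WithLp.toLp 2 (fun k => (lp i k : ℝ) / (20 * D)) :
      EuclideanSpace ℝ (Fin 3)) + (S / (20 * D * V)) •
      (WithLp.toLp 2 (fun k => (lv i k : ℝ)) : EuclideanSpace ℝ (Fin 3))) (P j)
  simp only [P_apply, PiLp.add_apply, PiLp.smul_apply, smul_eq_mul] at hd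
  have e : ((lp i 0 : ℝ) / (20 * D) + S / (20 * D * V) * (lv i 0 : ℝ) - (ctr j 0 : ℝ) / 20) ^ 2 +
      ((lp i 1 : ℝ) / (20 * D) + S / (20 * D * V) * (lv i 1 : ℝ) - (ctr j 1 : ℝ) / 20) ^ 2 +
      ((lp i 2 : ℝ) / (20 * D) + S / (20 * D * V) * (lv i 2 : ℝ) - (ctr j 2 : ℝ) / 20) ^ 2 =
      (Q * V - S ^ 2) / (400 * D ^ 2 * V) := by
    have e1 : ((lp i 0 : ℝ) / (20 * D) + S / (20 * D * V) * (lv i 0 : ℝ) - (ctr j 0 : ℝ) / 20) =
        (S * lv i 0 - V * (D * ctr j 0 - lp i 0)) / (20 * D * V) := by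
      field_simp
      ring
    have e2 : ((lp i 1 : ℝ) / (20 * D) + S / (20 * D * V) * (lv i 1 : ℝ) - (ctr j 1 : ℝ) / 20) =
        (S * lv i 1 - V * (D * ctr j 1 - lp i 1)) / (20 * D * V) := by
      field_simp
      ring
    have e3 : ((lp i 2 : ℝ) / (20 * D) + S / (20 * D * V) * (lv i 2 : ℝ) - (ctr j 2 : ℝ) / 20) =
        (S * lv i 2 - V * (D * ctr j 2 - lp i 2)) / (20 * D * V) := by
      field_simp
      ring
    rw [e1, e2, e3]
    have e4 : (S * lv i 0 - V * (D * ctr j 0 - lp i 0)) ^ 2 +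
        (S * lv i 1 - V * (D * ctr j 1 - lp i 1)) ^ 2 +
        (S * lv i 2 - V * (D * ctr j 2 - lp i 2)) ^ 2 = V * (Q * V - S ^ 2) := by
      have : (S * lv i 0 - V * (D * ctr j 0 - lp i 0)) ^ 2 +
        (S * lv i 1 - V * (D * ctr j 1 - lp i 1)) ^ 2 +
        (S * lv i 2 - V * (D * ctr j 2 - lp i 2)) ^ 2 =
        S ^ 2 * ((lv i 0 : ℝ) ^ 2 + (lv i 1 : ℝ) ^ 2 + (lv i 2 : ℝ) ^ 2) - 2 * S * V *
          ((D * ctr j 0 - lp i 0) * lv i 0 + (D * ctr j 1 - lp i 1) * lv i 1 +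
            (D * ctr j 2 - lp i 2) * lv i 2) + V ^ 2 * ((D * ctr j 0 - lp i 0) ^ 2 +
            (D * ctr j 1 - lp i 1) ^ 2 + (D * ctr j 2 - lp i 2) ^ 2) := by ring
      rw [this, ← hVdef, ← hSdef, ← hQdef]
      ring
    rw [div_pow, div_pow, div_pow, ← add_div, ← add_div, e4]
    field_simp
    ring
  rw [e] at hd
  have hle : (Q * V - S ^ 2) / (400 * D ^ 2 * V) ≤ 1 := by
    rw [div_le_one (by positivity)]
    exact h1'
  rw [← hd] at hle
  nlinarith [dist_nonneg (x := (WithLp.toLp 2 (fun k => (lp i k : ℝ) / (20 * D)) :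
      EuclideanSpace ℝ (Fin 3)) + (S / (20 * D * V)) •
      (WithLp.toLp 2 (fun k => (lv i k : ℝ)) : EuclideanSpace ℝ (Fin 3))) (y := P j)]

lemma fam_T5 : PropT 5 (fam : Set (EuclideanSpace ℝ (Fin 3))) := by
  classical
  intro B hB hcard
  have hB' : B ⊆ fam := by exact_mod_cast hB
  obtain ⟨x, hx, hxB⟩ : ∃ x ∈ fam, x ∉ B := by
    by_contra hcon
    push Not at hcon
    have : fam ⊆ B := hcon
    have := Finset.card_le_card this
    rw [card_fam] at this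
    omega
  simp only [fam, Finset.mem_image, Finset.mem_univ, true_and] at hx
  obtain ⟨i, rfl⟩ := hx
  refine ⟨WithLp.toLp 2 (fun k => (lp i k : ℝ) / (20 * ld i)),
    WithLp.toLp 2 (fun k => (lv i k : ℝ)), ?_, ?_⟩
  · intro h0
    have hV := lv_pos i
    have h1 : ∀ k, lv i k = 0 := by
      intro k
      have h2 := congrArg (fun w : EuclideanSpace ℝ (Fin 3) => w k) h0
      simpa using h2
    rw [h1 0, h1 1, h1 2] at hV
    simp at hV
  · intro c hc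
    have hc' : c ∈ fam := hB' (by exact_mod_cast hc)
    simp only [fam, Finset.mem_image, Finset.mem_univ, true_and] at hc'
    obtain ⟨j, rfl⟩ := hc'
    have hij : i ≠ j := by
      rintro rfl
      exact hxB (by exact_mod_cast hc)
    exact line_hits i j hij

lemma PropT.mono {d k l : ℕ} {A : Set (EuclideanSpace ℝ (Fin d))} (h : PropT l A) (hkl : k ≤ l) :
    PropT k A := fun B hB hc => h B hB (hc.trans hkl)

/-- Danzer's question in dimension three: `k_3 ≥ 6`, hence `k_3 > k_2 = 5`. -/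
theorem result :
    (∃ A : Finset (EuclideanSpace ℝ (Fin 3)), A.card = 6 ∧
      DisjointBalls (A : Set (EuclideanSpace ℝ (Fin 3))) ∧
      PropT 5 (A : Set (EuclideanSpace ℝ (Fin 3))) ∧
      ¬ HasTransversal (A : Set (EuclideanSpace ℝ (Fin 3)))) ∧
    (∀ k : ℕ, Good 3 k → 6 ≤ k) ∧
    (∀ k : ℕ, GoodFin 3 k → 6 ≤ k) ∧
    (GoodFin 2 5 → ∀ k : ℕ, GoodFin 3 (k + 1) → GoodFin 2 k) := by
  have h3 : ∀ k : ℕ, GoodFin 3 k → 6 ≤ k := by
    intro k hk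
    by_contra hlt
    exact fam_no_transversal (hk fam fam_disjoint (fam_T5.mono (by omega)))
  refine ⟨⟨fam, card_fam, fam_disjoint, fam_T5, fam_no_transversal⟩, ?_, h3, ?_⟩
  · intro k hk
    exact h3 k fun A => hk A
  · intro h25 k hk A hA hT
    have := h3 _ hk
    exact h25 A hA (hT.mono (by omega))

end Pool.Agent.Results.MP_a382a5_co.SixBalls
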